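import Pool.Agent.Lib.MP_a349aa_gt.E13
import Pool.Agent.Lib.MP_a349aa_gt.D14

/-!
# An (S)-Ricci-flat graph with negative entropic curvature

There is a finite connected simple graph, regular of degree `d ≥ 1`, all of whose vertices are
Ricci flat and even (S)-Ricci flat, and whose entropic curvature `K_ent(G)` (for the simple random
walk, the uniform measure and the logarithmic mean) is negative. This answers both questions of
the problem in the negative.
-/

namespace Pool.Agent.Results.MP_a349aa_gt.NegativeCurvature

theorem result :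
    ∃ (V : Type) (_ : Fintype V) (G : SimpleGraph V) (d : ℕ),
      1 ≤ d ∧ G.Connected ∧ (∀ x, Nat.card (G.neighborSet x) = d) ∧
      (∀ x, EntRF.RicciFlatAt G d x) ∧ (∀ x, EntRF.SRicciFlatAt G d x) ∧
      EntRF.Kent G d < 0 := by
  obtain ⟨V, hV, G, d, h1, h2, h3, h4, h5⟩ := EntRF.main_theorem
  exact ⟨V, hV, G, d, h1, h2, h3, fun x => (h4 x).ricci, h4, h5⟩

end Pool.Agent.Results.MP_a349aa_gt.NegativeCurvature
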